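import Pool.Agent.TH927.CM.Defs

/-!
# MP_768c9c_nt, task HXc (job 786): assembly of the host parts, completely multiplicative version

Adapted from `Pool.Agent.W356.MO.HX`.
-/

set_option autoImplicit false

namespace Pool.Agent.TH693.J786

open Finset Filter Topology
open scoped Classical
open Pool.Agent.W76.MO
open Pool.Agent.TH927.CM

theorem lp_mem_of_pos {n : ℕ} (h : 0 < lp n) : lp n ∈ n.primeFactors := by
  unfold Pool.Agent.W76.MO.lp at h ⊢
  have hne : n.primeFactors.Nonempty := by
    rw [Finset.nonempty_iff_ne_empty]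
    intro h0
    rw [h0] at h
    simp at h
  obtain ⟨x, hx, hx'⟩ := Finset.exists_mem_eq_sup n.primeFactors hne id
  rw [hx']
  exact hx

theorem w_nonneg (E : Env) (i : ℕ) : 0 ≤ E.w i := by
  unfold Env.w
  positivity

theorem Ec_nonneg (E : Env) (j : ℕ) (h1 : ∀ p, 0 ≤ E.gu j p) (h2 : ∀ p, 0 ≤ E.gh j p) (n : ℕ) :
    0 ≤ Ec E j n := by
  unfold Ec
  apply mprod_nonneg
  intro p
  have : 0 ≤ E.g j p := by
    unfold Env.g
    exact add_nonneg (h1 p) (h2 p)
  positivity

theorem cell_le {δ : ℝ} {i k n : ℕ} (hk : k < nc δ i) (hn : n ∈ cell δ i k) :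
    n ≤ 2 ^ (i + 1) := by
  unfold cell at hn
  rw [Finset.mem_Ioc] at hn
  unfold nc at hk
  have h1 : (k + 1) * hh δ i ≤ 2 ^ i := by
    calc (k + 1) * hh δ i ≤ (2 ^ i / hh δ i) * hh δ i := Nat.mul_le_mul_right _ hk
      _ ≤ 2 ^ i := Nat.div_mul_le_self _ _
  calc n ≤ 2 ^ i + (k + 1) * hh δ i := hn.2
    _ ≤ 2 ^ i + 2 ^ i := by omega
    _ = 2 ^ (i + 1) := by ring

theorem lt_cell {δ : ℝ} {i k n : ℕ} (hn : n ∈ cell δ i k) : 2 ^ i < n := by
  unfold cell at hn
  rw [Finset.mem_Ioc] at hn
  have := hn.1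
  have h2 : 0 ≤ k * hh δ i := Nat.zero_le _
  omega

theorem host_lp {E : Env} {j i k n : ℕ} (hn : n ∈ E.Host j i k) :
    (2 : ℝ) ^ ((1 / 2 + E.τ) * i) ≤ lp n := by
  unfold Env.Host at hn
  rw [Finset.mem_filter] at hn
  exact hn.2.1

theorem HX_c : T_HXc := by
  intro E hG h1 hA hB
  obtain ⟨JG, _, hG⟩ := hG
  obtain ⟨J1, h1⟩ := h1
  obtain ⟨R₀, hA⟩ := hA
  obtain ⟨JB, hB⟩ := hB
  refine ⟨R₀, fun R hR => ?_⟩
  obtain ⟨JA, hA⟩ := hA R hR
  refine ⟨max (max JG J1) (max JA JB), fun j hj i hij k hk => ?_⟩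
  have hjG : JG ≤ j := le_trans (le_trans (le_max_left _ _) (le_max_left _ _)) hj
  have hj1 : J1 ≤ j := le_trans (le_trans (le_max_right _ _) (le_max_left _ _)) hj
  have hjA : JA ≤ j := le_trans (le_trans (le_max_left _ _) (le_max_right _ _)) hj
  have hjB : JB ≤ j := le_trans (le_trans (le_max_right _ _) (le_max_right _ _)) hj
  obtain ⟨_, hgu, hgh, _⟩ := hG j hjG
  have h1' := h1 j hj1 R i k hij hk
  have hA' := hA j hjA i k hij hk
  have hB' := hB j hjB R i k hij hk
  have hτ := E.hτ
  have hw := w_nonneg E i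
  -- the main bound
  have key : ∑ n ∈ cr E R i k, ∑ q ∈ n.primeFactors.filter
      (fun q : ℕ => (2 : ℝ) ^ (1 / 20 * (i : ℝ)) < q),
      (n.factorization q : ℝ) * (E.gh j q * (Ec E j (n / q) / ((n / q : ℕ) : ℝ))) ≤
      ∑ i' ∈ (range (2 * i + 3)).filter (fun i' : ℕ => j ≤ i'),
        ∑ k' ∈ E.Bad i', HTc E j R i k i' k' (fun _ _ => True) := by
    have step : ∀ n ∈ cr E R i k, ∑ q ∈ n.primeFactors.filter
      (fun q : ℕ => (2 : ℝ) ^ (1 / 20 * (i : ℝ)) < q),
      (n.factorization q : ℝ) * (E.gh j q * (Ec E j (n / q) / ((n / q : ℕ) : ℝ))) ≤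
      ∑ i' ∈ (range (2 * i + 3)).filter (fun i' : ℕ => j ≤ i'),
        ∑ k' ∈ E.Bad i', ∑ n₁ ∈ (E.Host j i' k').filter (fun n₁ => lp n₁ ∣ n ∧
          (2 : ℝ) ^ (1 / 20 * (i : ℝ)) < lp n₁ ∧ True),
          (n.factorization (lp n₁) : ℝ) * (E.w i' / ((E.Host j i' k').card : ℝ) * ((n₁ : ℝ) / n) *
            Ec E j (n / lp n₁)) := by
      intro n hn
      have hncell : n ∈ cell E.δ i k := by
        unfold cr at hn
        exact (Finset.mem_filter.mp hn).1
      have hnle : n ≤ 2 ^ (i + 1) := cell_le hk hncell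
      have hnpos : 0 < n := lt_of_le_of_lt (Nat.zero_le _) (lt_cell hncell)
      -- first, bound each q term
      have stepq : ∀ q ∈ n.primeFactors.filter
          (fun q : ℕ => (2 : ℝ) ^ (1 / 20 * (i : ℝ)) < q),
          (n.factorization q : ℝ) * (E.gh j q * (Ec E j (n / q) / ((n / q : ℕ) : ℝ))) ≤
          ∑ i' ∈ (range (2 * i + 3)).filter (fun i' : ℕ => j ≤ i'),
            ∑ k' ∈ E.Bad i', ∑ n₁ ∈ (E.Host j i' k').filter (fun n₁ => lp n₁ = q),
              (n.factorization (lp n₁) : ℝ) * (E.w i' / ((E.Host j i' k').card : ℝ) * ((n₁ : ℝ) / n) *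
            Ec E j (n / lp n₁)) := by
        intro q hq
        rw [Finset.mem_filter] at hq
        have hqp : q.Prime := Nat.prime_of_mem_primeFactors hq.1
        have hqd : q ∣ n := Nat.dvd_of_mem_primeFactors hq.1
        have hqn : q ≤ n := Nat.le_of_dvd hnpos hqd
        have hq0 : (0 : ℝ) < q := by exact_mod_cast hqp.pos
        have hn0 : (0 : ℝ) < n := by exact_mod_cast hnpos
        have hdiv : ((n / q : ℕ) : ℝ) = (n : ℝ) / q := by
          rw [Nat.cast_div hqd (ne_of_gt hq0)]
        unfold Env.gh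
        rw [Finset.sum_mul, Finset.mul_sum]
        -- pointwise identity
        have hid : ∀ i' : ℕ, (n.factorization q : ℝ) * ((∑ k' ∈ E.Bad i',
            ∑ n₁ ∈ (E.Host j i' k').filter (fun n₁ => lp n₁ = q),
            E.w i' / ((E.Host j i' k').card : ℝ) * ((n₁ : ℝ) / q)) *
              (Ec E j (n / q) / ((n / q : ℕ) : ℝ))) =
            ∑ k' ∈ E.Bad i', ∑ n₁ ∈ (E.Host j i' k').filter (fun n₁ => lp n₁ = q),
              (n.factorization (lp n₁) : ℝ) * (E.w i' / ((E.Host j i' k').card : ℝ) * ((n₁ : ℝ) / n) *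
            Ec E j (n / lp n₁)) := by
          intro i'
          rw [Finset.sum_mul, Finset.mul_sum]
          apply Finset.sum_congr rfl
          intro k' _
          rw [Finset.sum_mul, Finset.mul_sum]
          apply Finset.sum_congr rfl
          intro n₁ hn₁
          rw [Finset.mem_filter] at hn₁
          rw [hn₁.2, hdiv]
          field_simp
        rw [Finset.sum_congr rfl (fun i' _ => hid i')]
        -- compare index sets
        have hnonneg : ∀ i' : ℕ, 0 ≤ ∑ k' ∈ E.Bad i',
            ∑ n₁ ∈ (E.Host j i' k').filter (fun n₁ => lp n₁ = q),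
              (n.factorization (lp n₁) : ℝ) * (E.w i' / ((E.Host j i' k').card : ℝ) * ((n₁ : ℝ) / n) *
            Ec E j (n / lp n₁)) := by
          intro i'
          apply Finset.sum_nonneg
          intro k' _
          apply Finset.sum_nonneg
          intro n₁ _
          have := w_nonneg E i'
          have := Ec_nonneg E j hgu hgh (n / lp n₁)
          positivity
        have hzero : ∀ i' : ℕ, 2 * i + 3 ≤ i' → ∑ k' ∈ E.Bad i',
            ∑ n₁ ∈ (E.Host j i' k').filter (fun n₁ => lp n₁ = q),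
              (n.factorization (lp n₁) : ℝ) * (E.w i' / ((E.Host j i' k').card : ℝ) * ((n₁ : ℝ) / n) *
            Ec E j (n / lp n₁)) = 0 := by
          intro i' hi'
          apply Finset.sum_eq_zero
          intro k' _
          apply Finset.sum_eq_zero
          intro n₁ hn₁
          exfalso
          rw [Finset.mem_filter] at hn₁
          have h3 := host_lp hn₁.1
          rw [hn₁.2] at h3
          have h4 : (q : ℝ) ≤ (2 : ℝ) ^ ((i : ℝ) + 1) := by
            have : (q : ℝ) ≤ ((2 ^ (i + 1) : ℕ) : ℝ) := by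
              exact_mod_cast le_trans hqn hnle
            rw [show ((i : ℝ) + 1) = ((i + 1 : ℕ) : ℝ) by push_cast; ring, Real.rpow_natCast]
            push_cast at this
            exact this
          have h5 : (2 : ℝ) ^ ((i : ℝ) + 1) < (2 : ℝ) ^ ((1 / 2 + E.τ) * i') := by
            apply Real.rpow_lt_rpow_of_exponent_lt (by norm_num)
            have : (2 * (i : ℝ) + 3) ≤ i' := by exact_mod_cast hi'
            nlinarith
          linarith
        rw [← Finset.sum_filter_ne_zero]
        apply Finset.sum_le_sum_of_subset_of_nonneg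
        · intro i' hi'
          rw [Finset.mem_filter, Finset.mem_filter] at hi'
          rw [Finset.mem_filter]
          refine ⟨?_, hi'.1.2⟩
          rw [Finset.mem_range]
          by_contra hcon
          exact hi'.2 (hzero i' (by omega))
        · intro i' _ _
          exact hnonneg i'
      refine le_trans (Finset.sum_le_sum stepq) ?_
      rw [Finset.sum_comm]
      apply Finset.sum_le_sum
      intro i' _
      rw [Finset.sum_comm]
      apply Finset.sum_le_sum
      intro k' _
      -- fiberwise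
      have hfib : ∑ q ∈ n.primeFactors.filter
          (fun q : ℕ => (2 : ℝ) ^ (1 / 20 * (i : ℝ)) < q),
          ∑ n₁ ∈ (E.Host j i' k').filter (fun n₁ => lp n₁ = q),
            (n.factorization (lp n₁) : ℝ) * (E.w i' / ((E.Host j i' k').card : ℝ) * ((n₁ : ℝ) / n) *
            Ec E j (n / lp n₁)) =
          ∑ n₁ ∈ (E.Host j i' k').filter (fun n₁ => lp n₁ ∈ n.primeFactors.filter
          (fun q : ℕ => (2 : ℝ) ^ (1 / 20 * (i : ℝ)) < q)),
            (n.factorization (lp n₁) : ℝ) * (E.w i' / ((E.Host j i' k').card : ℝ) * ((n₁ : ℝ) / n) *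
            Ec E j (n / lp n₁)) := by
        rw [← Finset.sum_fiberwise_of_maps_to (s := (E.Host j i' k').filter
          (fun n₁ => lp n₁ ∈ n.primeFactors.filter
            (fun q : ℕ => (2 : ℝ) ^ (1 / 20 * (i : ℝ)) < q)))
          (t := n.primeFactors.filter (fun q : ℕ => (2 : ℝ) ^ (1 / 20 * (i : ℝ)) < q)) (g := lp)]
        · apply Finset.sum_congr rfl
          intro q hq
          apply Finset.sum_congr
          · ext n₁
            simp only [Finset.mem_filter] at hq ⊢
            constructor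
            · rintro ⟨ha, hb⟩
              refine ⟨⟨ha, ?_⟩, hb⟩
              rw [hb]
              exact hq
            · rintro ⟨⟨ha, _⟩, hb⟩
              exact ⟨ha, hb⟩
          · intro _ _
            rfl
        · intro n₁ hn₁
          exact (Finset.mem_filter.mp hn₁).2
      rw [hfib]
      apply Finset.sum_le_sum_of_subset_of_nonneg
      · intro n₁ hn₁
        simp only [Finset.mem_filter] at hn₁ ⊢
        exact ⟨hn₁.1, Nat.dvd_of_mem_primeFactors hn₁.2.1, hn₁.2.2, trivial⟩
      · intro n₁ _ _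
        have := w_nonneg E i'
        have := Ec_nonneg E j hgu hgh (n / lp n₁)
        positivity
    refine le_trans (Finset.sum_le_sum step) ?_
    rw [Finset.sum_comm]
    apply le_of_eq
    apply Finset.sum_congr rfl
    intro i' _
    rw [Finset.sum_comm]
    apply Finset.sum_congr rfl
    intro k' _
    unfold HTc
    rw [Finset.sum_filter, Finset.sum_product_right]
    apply Finset.sum_congr rfl
    intro n _
    rw [Finset.sum_filter]
    apply Finset.sum_congr rfl
    intro n₁ _
    congr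
  refine le_trans key ?_
  rw [← Finset.sum_filter_add_sum_filter_not _ (fun i' : ℕ => (i' : ℝ) < (1 - E.τ) * i),
    Finset.filter_filter, Finset.filter_filter]
  simp only [not_lt]
  have hsplit : ∑ i' ∈ (range (2 * i + 3)).filter
      (fun i' : ℕ => j ≤ i' ∧ (1 - E.τ) * i ≤ (i' : ℝ)),
      ∑ k' ∈ E.Bad i', HTc E j R i k i' k' (fun _ _ => True) =
      ∑ i' ∈ (range (2 * i + 3)).filter
      (fun i' : ℕ => j ≤ i' ∧ (1 - E.τ) * i ≤ (i' : ℝ)),
      ∑ k' ∈ E.Bad i', HTc E j R i k i' k' (fun a b => a ∣ b) +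
      ∑ i' ∈ (range (2 * i + 3)).filter
      (fun i' : ℕ => j ≤ i' ∧ (1 - E.τ) * i ≤ (i' : ℝ)),
      ∑ k' ∈ E.Bad i', HTc E j R i k i' k' (fun a b => ¬ a ∣ b) := by
    rw [← Finset.sum_add_distrib]
    apply Finset.sum_congr rfl
    intro i' _
    rw [← Finset.sum_add_distrib]
    apply Finset.sum_congr rfl
    intro k' _
    unfold HTc
    rw [← Finset.sum_filter_add_sum_filter_not _ (fun u : ℕ × ℕ => u.1 ∣ u.2),
      Finset.filter_filter, Finset.filter_filter]
    simp only [and_true, and_assoc]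
  rw [hsplit]
  linarith

end Pool.Agent.TH693.J786
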